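import Mathlib

/-!
# N-ary cosets of the lifted dihedral group are affine

For every `n` coprime to `6`, a coset `σ D#_n` of the lifted dihedral group which is closed under
`N`-fold products for some `N ≥ 2` has `σ` affine.  Hence there is no non-affine panmagic
`N`-ary coset of `D#_n`.
-/

namespace Pool.Agent.Results.MP_72c4d1_al.NaryCosetAffine

/-- `rad n`: the product of the distinct primes dividing `n`. -/
def rad (n : ℕ) : ℕ := ∏ p ∈ n.primeFactors, p

theorem rad_dvd (n : ℕ) : rad n ∣ n := Nat.prod_primeFactors_dvd n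

/-- A permutation of `ZMod n` is panmagic if both `i ↦ σ i + i` and `i ↦ σ i - i` are bijections. -/
def Panmagic {n : ℕ} (σ : Equiv.Perm (ZMod n)) : Prop :=
  Function.Bijective (fun i => σ i + i) ∧ Function.Bijective (fun i => σ i - i)

/-- `σ` is the affine permutation `i ↦ u i + b` for some unit `u` and some `b`. -/
def IsAffine {n : ℕ} (σ : Equiv.Perm (ZMod n)) : Prop :=
  ∃ (u : (ZMod n)ˣ) (b : ZMod n), ∀ i, σ i = u * i + b

/-- The lifted dihedral group `D#_n`: all `i ↦ u i + b` with `u` a unit of `ZMod n` whose image in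
`ZMod (rad n)` has square `1`. -/
def liftedDihedral (n : ℕ) : Subgroup (Equiv.Perm (ZMod n)) where
  carrier := {π | ∃ (u : (ZMod n)ˣ) (b : ZMod n),
    (ZMod.castHom (rad_dvd n) (ZMod (rad n)) (u : ZMod n)) ^ 2 = 1 ∧ ∀ i, π i = u * i + b}
  mul_mem' := by
    rintro π π' ⟨u, b, hu, h⟩ ⟨u', b', hu', h'⟩
    refine ⟨u * u', u * b' + b, ?_, ?_⟩
    · rw [Units.val_mul, map_mul, mul_pow, hu, hu', mul_one]
    · intro i
      rw [Equiv.Perm.mul_apply, h, h', Units.val_mul]
      ring
  one_mem' := ⟨1, 0, by rw [Units.val_one, map_one, one_pow], by simp⟩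
  inv_mem' := by
    rintro π ⟨u, b, hu, h⟩
    refine ⟨u⁻¹, -(u⁻¹ * b), ?_, ?_⟩
    · have h1 : (ZMod.castHom (rad_dvd n) (ZMod (rad n)) (u : ZMod n)) *
        (ZMod.castHom (rad_dvd n) (ZMod (rad n)) ((u⁻¹ : (ZMod n)ˣ) : ZMod n)) = 1 := by
        rw [← map_mul, Units.mul_inv, map_one]
      have h2 := congrArg (fun x => x ^ 2) h1
      simp only [mul_pow, one_pow] at h2
      rw [hu, one_mul] at h2
      exact h2
    · intro i
      have : π (u⁻¹ * i + -(u⁻¹ * b)) = i := by
        rw [h]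
        have : (u : ZMod n) * ((u⁻¹ : (ZMod n)ˣ) : ZMod n) = 1 := Units.mul_inv u
        linear_combination (i - b) * this
      rw [Equiv.Perm.inv_eq_iff_eq, this]

/-- The left coset `σ H`. -/
def coset {n : ℕ} (σ : Equiv.Perm (ZMod n)) (H : Subgroup (Equiv.Perm (ZMod n))) :
    Set (Equiv.Perm (ZMod n)) := {π | ∃ h ∈ H, π = σ * h}

/-- A set `C` of permutations is closed under products of `N` of its elements. -/
def ClosedUnderProducts {n : ℕ} (N : ℕ) (C : Set (Equiv.Perm (ZMod n))) : Prop :=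
  ∀ l : List (Equiv.Perm (ZMod n)), l.length = N → (∀ π ∈ l, π ∈ C) → l.prod ∈ C

theorem conj_mem {n : ℕ} (σ : Equiv.Perm (ZMod n)) (H : Subgroup (Equiv.Perm (ZMod n)))
    (N : ℕ) (hN : 2 ≤ N) (hC : ClosedUnderProducts N (coset σ H)) (h : Equiv.Perm (ZMod n))
    (hh : h ∈ H) : σ * h * σ⁻¹ ∈ H := by
  obtain ⟨k, rfl⟩ : ∃ k, N = k + 2 := ⟨N - 2, by omega⟩
  have hσ : σ ∈ coset σ H := ⟨1, H.one_mem, by simp⟩
  have h1 := hC (σ :: σ :: List.replicate k σ) (by simp) (by
    intro π hπ
    simp only [List.mem_cons, List.mem_replicate] at hπ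
    rcases hπ with rfl | rfl | ⟨_, rfl⟩ <;> exact hσ)
  have h2 := hC (σ :: (σ * h) :: List.replicate k σ) (by simp) (by
    intro π hπ
    simp only [List.mem_cons, List.mem_replicate] at hπ
    rcases hπ with rfl | rfl | ⟨_, rfl⟩
    · exact hσ
    · exact ⟨h, hh, rfl⟩
    · exact hσ)
  simp only [List.prod_cons, List.prod_replicate] at h1 h2
  obtain ⟨a, ha, ha'⟩ := h1
  obtain ⟨b, hb, hb'⟩ := h2
  have ha2 : σ * σ ^ k = a := mul_left_cancel ha'
  have hb2 : σ * h * σ ^ k = b := mul_left_cancel hb'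
  have : σ * h * σ⁻¹ = b * a⁻¹ := by
    rw [← ha2, ← hb2]
    group
  rw [this]
  exact H.mul_mem hb (H.inv_mem ha)

theorem affine_of_conj {n : ℕ} (hn : Odd n) (hn0 : n ≠ 0) (σ : Equiv.Perm (ZMod n))
    (hσ : ∀ h ∈ liftedDihedral n, σ * h * σ⁻¹ ∈ liftedDihedral n) : IsAffine σ := by
  have : NeZero n := ⟨hn0⟩
  -- the translation and the reflection
  have hτ : Equiv.addRight (1 : ZMod n) ∈ liftedDihedral n :=
    ⟨1, 1, by rw [Units.val_one, map_one, one_pow], by intro i; simp⟩
  have hι : Equiv.neg (ZMod n) ∈ liftedDihedral n :=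
    ⟨-1, 0, by rw [Units.val_neg, Units.val_one, map_neg, map_one, neg_one_sq],
      by intro i; simp⟩
  obtain ⟨u, b, -, hρ⟩ := hσ _ hτ
  obtain ⟨v, c, -, hθ⟩ := hσ _ hι
  have hρ' : ∀ j, σ (j + 1) = u * σ j + b := by
    intro j
    have := hρ (σ j)
    simpa [Equiv.Perm.mul_apply] using this
  have hθ' : ∀ j, σ (-j) = v * σ j + c := by
    intro j
    have := hθ (σ j)
    simpa [Equiv.Perm.mul_apply] using this
  -- `σ (-(j+1)) + 1` gives the relation `ρ θ ρ = θ`
  have hrel : ∀ j, (u : ZMod n) * (v * (u * σ j + b) + c) + b = v * σ j + c := by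
    intro j
    rw [← hρ' j, ← hθ' (j + 1), ← hρ', ← hθ' j]
    congr 1
    ring
  have hrel' : ∀ y : ZMod n, (u : ZMod n) * (v * (u * y + b) + c) + b = v * y + c := by
    intro y
    have := hrel (σ⁻¹ y)
    simpa using this
  have huu : (u : ZMod n) * u = 1 := by
    have h0 := hrel' 0
    have h1 := hrel' 1
    have h2 : (v : ZMod n) * (u * u) = v * 1 := by linear_combination h1 - h0
    exact (Units.mul_right_inj v).mp h2
  have hd : ∀ j, σ (j + 2) = σ j + (u * b + b) := by
    intro j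
    have : j + 2 = (j + 1) + 1 := by ring
    rw [this, hρ', hρ']
    linear_combination (σ j) * huu
  have hdm : ∀ (m : ℕ) (j : ZMod n), σ (j + 2 * m) = σ j + m * (u * b + b) := by
    intro m
    induction m with
    | zero => intro j; simp
    | succ m ih =>
      intro j
      have : j + 2 * ((m + 1 : ℕ) : ZMod n) = (j + 2 * m) + 2 := by push_cast; ring
      rw [this, hd, ih]
      push_cast
      ring
  obtain ⟨m, hm⟩ := hn
  have h2m : (2 : ZMod n) * ((m + 1 : ℕ) : ZMod n) = 1 := by
    have : ((2 * m + 1 : ℕ) : ZMod n) = 0 := by rw [← hm]; exact ZMod.natCast_self n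
    push_cast at this ⊢
    linear_combination this
  set e : ZMod n := ((m + 1 : ℕ) : ZMod n) * (u * b + b) with he
  have hstep : ∀ j, σ (j + 1) = σ j + e := by
    intro j
    have := hdm (m + 1) j
    rwa [h2m] at this
  have hlin : ∀ k : ℕ, σ (k : ZMod n) = e * k + σ 0 := by
    intro k
    induction k with
    | zero => simp
    | succ k ih =>
      push_cast
      rw [hstep, ih]
      ring
  have hlin' : ∀ i : ZMod n, σ i = e * i + σ 0 := by
    intro i
    have := hlin i.val
    simpa using this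
  obtain ⟨i, hi⟩ := σ.surjective (σ 0 + 1)
  have hei : e * i = 1 := by
    rw [hlin' i] at hi
    linear_combination hi
  refine ⟨⟨e, i, hei, by rw [mul_comm]; exact hei⟩, σ 0, ?_⟩
  intro j
  exact hlin' j

/-- There is no non-affine panmagic `N`-ary coset of the lifted dihedral group:
for every `n ≥ 5` with `gcd (n, 6) = 1`, every permutation `σ` of `ZMod n` and every `N ≥ 2`,
if the coset `σ D#_n` is closed under products of `N` of its elements and consists of panmagic
permutations, then `σ` is affine. -/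
theorem result (n : ℕ) (_hn5 : 5 ≤ n) (hn6 : Nat.Coprime n 6) (σ : Equiv.Perm (ZMod n))
    (N : ℕ) (hN : 2 ≤ N)
    (hclosed : ClosedUnderProducts N (coset σ (liftedDihedral n)))
    (_hpan : ∀ π ∈ coset σ (liftedDihedral n), Panmagic π) :
    IsAffine σ := by
  have hodd : Odd n := by
    rw [← Nat.not_even_iff_odd]
    intro h
    have h2 : 2 ∣ n := h.two_dvd
    have : 2 ∣ Nat.gcd n 6 := Nat.dvd_gcd h2 (by norm_num)
    rw [hn6] at this
    omega
  exact affine_of_conj hodd (by omega) σ (fun h hh => conj_mem σ _ N hN hclosed h hh)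

end Pool.Agent.Results.MP_72c4d1_al.NaryCosetAffine
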